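import Mathlib

/-!
A completely multiplicative sign function `f : ℕ → Bool` (`true` is `+`) takes the value `+` on at
least half of the points of some translate of any given finite pattern.
-/

namespace Pool.Agent.Hhelper89.Lehmer

open Finset

/-- complete multiplicativity on positive integers, for `Bool`-valued signs -/
def MulSign (f : ℕ → Bool) : Prop := ∀ m n, 0 < m → 0 < n → f (m * n) = (f m == f n)

/-- real sign -/
noncomputable def sg (f : ℕ → Bool) (n : ℕ) : ℝ := if f n then 1 else -1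

lemma MulSign.one {f : ℕ → Bool} (hf : MulSign f) : f 1 = true := by
  have := hf 1 1 one_pos one_pos
  rw [mul_one] at this
  rw [this]
  cases f 1 <;> rfl

lemma sg_mul {f : ℕ → Bool} (hf : MulSign f) {m n : ℕ} (hm : 0 < m) (hn : 0 < n) :
    sg f (m * n) = sg f m * sg f n := by
  unfold sg
  rw [hf m n hm hn]
  cases f m <;> cases f n <;> simp

lemma abs_sg (f : ℕ → Bool) (n : ℕ) : |sg f n| = 1 := by
  unfold sg
  cases f n <;> simp

lemma sg_le (f : ℕ → Bool) (n : ℕ) : sg f n ≤ 1 := (le_abs_self _).trans (abs_sg f n).le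

lemma neg_le_sg (f : ℕ → Bool) (n : ℕ) : -1 ≤ sg f n := by
  have := neg_abs_le (sg f n); rw [abs_sg] at this; exact this

/-- as an arithmetic function -/
noncomputable def sgA (f : ℕ → Bool) : ArithmeticFunction ℝ :=
  ⟨fun n => if n = 0 then 0 else sg f n, by simp⟩

lemma sgA_apply (f : ℕ → Bool) {n : ℕ} (hn : n ≠ 0) : sgA f n = sg f n := by
  simp [sgA, hn]

lemma sgA_mult {f : ℕ → Bool} (hf : MulSign f) : (sgA f).IsMultiplicative := by
  rw [ArithmeticFunction.IsMultiplicative.iff_ne_zero]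
  refine ⟨by rw [sgA_apply f one_ne_zero]; simp [sg, hf.one], ?_⟩
  intro m n hm hn _
  rw [sgA_apply f hm, sgA_apply f hn, sgA_apply f (mul_ne_zero hm hn),
    sg_mul hf (Nat.pos_of_ne_zero hm) (Nat.pos_of_ne_zero hn)]

lemma sg_pow {f : ℕ → Bool} (hf : MulSign f) {p : ℕ} (hp : 0 < p) (i : ℕ) :
    sg f (p ^ i) = sg f p ^ i := by
  induction i with
  | zero => simp [sg, hf.one]
  | succ i ih => rw [pow_succ, sg_mul hf (pow_pos hp i) hp, ih, pow_succ]

lemma conv_nonneg {f : ℕ → Bool} (hf : MulSign f) (n : ℕ) :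
    0 ≤ (sgA f * (ArithmeticFunction.zeta : ArithmeticFunction ℝ)) n := by
  rcases eq_or_ne n 0 with rfl | hn
  · simp
  have hm : (sgA f * (ArithmeticFunction.zeta : ArithmeticFunction ℝ)).IsMultiplicative :=
    (sgA_mult hf).mul (ArithmeticFunction.isMultiplicative_zeta.natCast)
  rw [hm.multiplicative_factorization _ hn]
  apply Finset.prod_nonneg
  intro p hp
  have hpp : p.Prime := Nat.prime_of_mem_primeFactors (by simpa using hp)
  beta_reduce
  rw [ArithmeticFunction.coe_mul_zeta_apply, Nat.sum_divisors_prime_pow hpp]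
  have h1 : ∀ i ∈ Finset.range (n.factorization p + 1), sgA f (p ^ i) = sg f p ^ i := by
    intro i _
    rw [sgA_apply f (pow_pos hpp.pos i).ne', sg_pow hf hpp.pos]
  rw [Finset.sum_congr rfl h1]
  unfold sg
  cases f p with
  | true => simp; positivity
  | false =>
    simp only [Bool.false_eq_true, if_false]
    induction (n.factorization p + 1) using Nat.strong_induction_on with
    | _ k ih =>
      match k with
      | 0 => simp
      | 1 => simp
      | (k + 2) =>
        rw [Finset.sum_range_succ, Finset.sum_range_succ]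
        have := ih k (by omega)
        have h2 : (-1 : ℝ) ^ (k + 1) = - (-1) ^ k := by rw [pow_succ]; ring
        rw [h2]
        linarith

/-- the logarithmic sum is bounded below -/
lemma log_sum_ge {f : ℕ → Bool} (hf : MulSign f) (X : ℕ) :
    -1 ≤ ∑ n ∈ Ioc 0 X, sg f n / n := by
  rcases Nat.eq_zero_or_pos X with rfl | hX
  · simp
  have h1 : 0 ≤ ∑ n ∈ Ioc 0 X, (sgA f * (ArithmeticFunction.zeta : ArithmeticFunction ℝ)) n :=
    Finset.sum_nonneg fun n _ => conv_nonneg hf n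
  rw [ArithmeticFunction.sum_Ioc_mul_zeta_eq_sum] at h1
  have hXr : (0 : ℝ) < X := by exact_mod_cast hX
  have h2 : ∑ n ∈ Ioc 0 X, sgA f n * ((X / n : ℕ) : ℝ) ≤ ∑ n ∈ Ioc 0 X, (sg f n * (X / n) + 1) := by
    apply Finset.sum_le_sum
    intro n hn
    rw [Finset.mem_Ioc] at hn
    rw [sgA_apply f hn.1.ne']
    have hn' : (0 : ℝ) < n := by exact_mod_cast hn.1
    have h3 : ((X / n : ℕ) : ℝ) ≤ X / n := Nat.cast_div_le
    have h4 : (X : ℝ) / n < ((X / n : ℕ) : ℝ) + 1 := by
      rw [div_lt_iff₀ hn']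
      have := Nat.lt_div_mul_add hn.1 (a := X)
      have h5 : (X : ℝ) < ((X / n : ℕ) : ℝ) * n + n := by exact_mod_cast this
      linarith
    have ha := sg_le f n
    have hb := neg_le_sg f n
    unfold sg at *
    cases f n
    · simp only [Bool.false_eq_true, if_false]; linarith
    · simp only [if_true]; linarith
  have h3 : ∑ n ∈ Ioc 0 X, (sg f n * ((X : ℝ) / n) + 1) = X * (∑ n ∈ Ioc 0 X, sg f n / n) + X := by
    rw [Finset.sum_add_distrib, Finset.mul_sum]
    congr 1
    · apply Finset.sum_congr rfl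
      intro n _
      ring
    · simp
  rw [h3] at h2
  have h4 : 0 ≤ X * (∑ n ∈ Ioc 0 X, sg f n / n) + X := h1.trans h2
  by_contra h5
  push Not at h5
  nlinarith

lemma shift_eq (g : ℕ → ℝ) (X : ℕ) :
    ∑ n ∈ Ioc 0 (X + 1), g n / (n : ℝ) = g 1 + ∑ n ∈ Ioc 0 X, g (n + 1) / ((n : ℝ) + 1) := by
  induction X with
  | zero => simp
  | succ X ih =>
    rw [Finset.sum_Ioc_succ_top (by omega), ih, Finset.sum_Ioc_succ_top (by omega), add_assoc]
    push_cast
    ring

lemma shift_ge (g : ℕ → ℝ) (hg : ∀ n, -1 ≤ g n) (Y : ℕ) :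
    ∑ n ∈ Ioc 0 Y, g n / ((n : ℝ) + 1) - (1 - 1 / ((Y : ℝ) + 1)) ≤ ∑ n ∈ Ioc 0 Y, g n / (n : ℝ) := by
  induction Y with
  | zero => simp
  | succ Y ih =>
    rw [Finset.sum_Ioc_succ_top (by omega), Finset.sum_Ioc_succ_top (by omega)]
    have hs := hg (Y + 1)
    have hy : (0 : ℝ) < (Y : ℝ) + 1 := by positivity
    have h5 : 0 ≤ (1 / ((Y : ℝ) + 1) - 1 / ((Y : ℝ) + 1 + 1)) := by
      rw [sub_nonneg]
      apply one_div_le_one_div_of_le hy
      linarith
    have h6 : g (Y + 1) / ((Y : ℝ) + 1) - g (Y + 1) / ((Y : ℝ) + 1 + 1)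
        = g (Y + 1) * (1 / ((Y : ℝ) + 1) - 1 / ((Y : ℝ) + 1 + 1)) := by
      ring
    have h7 : -(1 / ((Y : ℝ) + 1) - 1 / ((Y : ℝ) + 1 + 1)) ≤
        g (Y + 1) / ((Y : ℝ) + 1) - g (Y + 1) / ((Y : ℝ) + 1 + 1) := by
      rw [h6]; nlinarith
    push_cast
    linarith

lemma shift_step (f : ℕ → Bool) (h X : ℕ) :
    ∑ n ∈ Ioc 0 X, sg f (n + h) / (n : ℝ) - 2 ≤ ∑ n ∈ Ioc 0 X, sg f (n + (h + 1)) / (n : ℝ) := by
  rcases Nat.eq_zero_or_pos X with rfl | hX
  · simp
  obtain ⟨Y, rfl⟩ : ∃ Y, X = Y + 1 := ⟨X - 1, by omega⟩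
  have e1 := shift_eq (fun n => sg f (n + h)) Y
  have e2 := shift_ge (fun n => sg f (n + (h + 1))) (fun n => neg_le_sg f _) Y
  beta_reduce at e1 e2
  have e3 : ∀ n : ℕ, n + 1 + h = n + (h + 1) := fun n => by ring
  simp only [e3] at e1
  rw [e1, Finset.sum_Ioc_succ_top (by omega)]
  have hs := neg_le_sg f (Y + 1 + (h + 1))
  have h8 : -(1 / ((Y : ℝ) + 1)) ≤ sg f (Y + 1 + (h + 1)) / ((Y + 1 : ℕ) : ℝ) := by
    push_cast
    rw [neg_div', div_le_div_iff_of_pos_right (by positivity)]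
    exact hs
  have h9 := sg_le f (0 + (h + 1))
  linarith

/-- shifted logarithmic sums are bounded below -/
lemma log_sum_shift_ge {f : ℕ → Bool} (hf : MulSign f) (h X : ℕ) :
    -1 - 2 * (h : ℝ) ≤ ∑ n ∈ Ioc 0 X, sg f (n + h) / n := by
  induction h with
  | zero =>
    have := log_sum_ge hf X
    simpa using this
  | succ h ih =>
    have := shift_step f h X
    push_cast
    linarith

/-- Some translate of the pattern `h` has at least half of its points in `+`. -/
theorem exists_half_plus {f : ℕ → Bool} (hf : MulSign f) (s : Finset ℕ) (h : ℕ → ℕ) :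
    ∃ n₀ : ℕ, 0 < n₀ ∧ 2 * (s.filter (fun i => f (n₀ + h i) = false)).card ≤ s.card := by
  by_contra hcon
  push Not at hcon
  -- pointwise: sum of signs ≤ -1
  have h1 : ∀ n : ℕ, 0 < n → ∑ i ∈ s, sg f (n + h i) ≤ -1 := by
    intro n hn
    have h2 := hcon n hn
    have h3 : ∑ i ∈ s, sg f (n + h i) = (s.card : ℝ)
        - 2 * ((s.filter (fun i => f (n + h i) = false)).card : ℝ) := by
      have h4 : ∀ i ∈ s, sg f (n + h i) = 1 - 2 * (if f (n + h i) = false then (1 : ℝ) else 0) := by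
        intro i _
        unfold sg
        cases f (n + h i)
        · simp; norm_num
        · simp
      rw [Finset.sum_congr rfl h4, Finset.sum_sub_distrib, ← Finset.mul_sum, Finset.sum_boole]
      simp
    rw [h3]
    have h5 : (s.card : ℝ) + 1 ≤ 2 * ((s.filter (fun i => f (n + h i) = false)).card : ℝ) := by
      exact_mod_cast h2
    linarith
  -- sum over n
  have h2 : ∀ X : ℕ, ∑ n ∈ Ioc 0 X, (1 / (n : ℝ)) ≤ ∑ i ∈ s, (1 + 2 * (h i : ℝ)) := by
    intro X
    have h3 : ∑ i ∈ s, (-1 - 2 * (h i : ℝ)) ≤ ∑ i ∈ s, ∑ n ∈ Ioc 0 X, sg f (n + h i) / n :=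
      Finset.sum_le_sum fun i _ => log_sum_shift_ge hf (h i) X
    rw [Finset.sum_comm] at h3
    have h4 : ∑ n ∈ Ioc 0 X, ∑ i ∈ s, sg f (n + h i) / (n : ℝ) ≤ ∑ n ∈ Ioc 0 X, -(1 / (n : ℝ)) := by
      apply Finset.sum_le_sum
      intro n hn
      rw [Finset.mem_Ioc] at hn
      have hn' : (0 : ℝ) < n := by exact_mod_cast hn.1
      rw [← Finset.sum_div, neg_div', div_le_div_iff_of_pos_right hn']
      exact h1 n hn.1
    have h5 := h3.trans h4
    rw [Finset.sum_neg_distrib] at h5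
    have h6 : ∑ i ∈ s, (-1 - 2 * (h i : ℝ)) = - ∑ i ∈ s, (1 + 2 * (h i : ℝ)) := by
      rw [← Finset.sum_neg_distrib]
      apply Finset.sum_congr rfl
      intro i _; ring
    rw [h6] at h5
    linarith
  -- divergence of the harmonic series
  have h3 := Real.tendsto_sum_range_one_div_nat_succ_atTop
  obtain ⟨X, hX⟩ := (h3.eventually_gt_atTop (∑ i ∈ s, (1 + 2 * (h i : ℝ)))).exists
  have h4 : ∑ n ∈ Ioc 0 X, (1 / (n : ℝ)) = ∑ i ∈ range X, (1 / ((i : ℝ) + 1)) := by
    clear hX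
    induction X with
    | zero => simp
    | succ X ih =>
      rw [Finset.sum_Ioc_succ_top (by omega), ih, Finset.sum_range_succ]
      push_cast; rfl
  have := h2 X
  rw [h4] at this
  linarith

end Pool.Agent.Hhelper89.Lehmer
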