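import Pool.Agent.Hhelper89.Lehmer.Defs
import Pool.Agent.Hhelper89.Lehmer.Density

/-!
If `Ω(a,b) = ∞` then an ultrafilter limit of Legendre symbols gives a completely multiplicative
sign function `f` with no `r` such that `f` is `+` at `r`, `r+a`, `r+b`.
-/

namespace Pool.Agent.Hhelper89.Lehmer

lemma isQR_iff (p : ℕ) [Fact p.Prime] (r : ℕ) :
    IsQR p r ↔ legendreSym p (r : ℤ) = 1 := by
  unfold IsQR
  by_cases h : p ∣ r
  · have h0 : ((r : ℤ) : ZMod p) = 0 := by
      rw [Int.cast_natCast]; exact (ZMod.natCast_eq_zero_iff r p).2 h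
    rw [(legendreSym.eq_zero_iff p _).2 h0]
    simp [h]
  · have h0 : ((r : ℤ) : ZMod p) ≠ 0 := by
      rw [Int.cast_natCast]
      intro h1
      exact h ((ZMod.natCast_eq_zero_iff r p).1 h1)
    rw [legendreSym.eq_one_iff p h0]
    constructor
    · rintro ⟨_, x, hx⟩
      refine ⟨(x : ZMod p), ?_⟩
      have := (ZMod.natCast_eq_natCast_iff _ _ _).2 hx
      push_cast at this
      rw [Int.cast_natCast, ← this, sq]
    · rintro ⟨x, hx⟩
      refine ⟨h, x.val, ?_⟩
      rw [← ZMod.natCast_eq_natCast_iff]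
      push_cast
      rw [ZMod.natCast_val, ZMod.cast_id', id, sq]
      rw [Int.cast_natCast] at hx
      exact hx.symm

lemma isQR_mul (p : ℕ) (hp : p.Prime) {m n : ℕ} (hm : ¬ p ∣ m) (hn : ¬ p ∣ n) :
    IsQR p (m * n) ↔ (IsQR p m ↔ IsQR p n) := by
  have : Fact p.Prime := ⟨hp⟩
  rw [isQR_iff, isQR_iff, isQR_iff]
  push_cast
  rw [legendreSym.mul]
  have hm0 : ((m : ℤ) : ZMod p) ≠ 0 := by
    rw [Int.cast_natCast]; intro h1; exact hm ((ZMod.natCast_eq_zero_iff m p).1 h1)
  have hn0 : ((n : ℤ) : ZMod p) ≠ 0 := by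
    rw [Int.cast_natCast]; intro h1; exact hn ((ZMod.natCast_eq_zero_iff n p).1 h1)
  rcases legendreSym.eq_one_or_neg_one p hm0 with h1 | h1 <;>
  rcases legendreSym.eq_one_or_neg_one p hn0 with h2 | h2 <;>
  rw [h1, h2] <;> norm_num

/-- extraction of a limiting sign function -/
theorem exists_sign (a b : ℕ) (h : ∀ M, 0 < M → ¬ TripleBound a b M) :
    ∃ f : ℕ → Bool, MulSign f ∧
      ∀ r, 0 < r → ¬ (f r = true ∧ f (r + a) = true ∧ f (r + b) = true) := by
  classical
  have h1 : ∀ N : ℕ, ∃ p : ℕ, p.Prime ∧ N < p ∧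
      ∀ r : ℕ, 1 ≤ r → r ≤ N + 1 → ¬ (IsQR p r ∧ IsQR p (r + a) ∧ IsQR p (r + b)) := by
    intro N
    have h2 := h (N + 1) (Nat.succ_pos N)
    unfold TripleBound at h2
    push Not at h2
    obtain ⟨p, hp, hpN, hr⟩ := h2 N
    exact ⟨p, hp, hpN, fun r hr1 hr2 ⟨ha, hb, hc⟩ => hr r hr1 hr2 ha hb hc⟩
  choose p hp hpN hr using h1
  let U : Ultrafilter ℕ := Filter.hyperfilter ℕ
  have hU : ∀ n : ℕ, ∀ᶠ N in (U : Filter ℕ), n ≤ N := fun n =>
    (Filter.eventually_ge_atTop n).filter_mono (Nat.hyperfilter_le_atTop)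
  refine ⟨fun n => decide (∀ᶠ N in (U : Filter ℕ), IsQR (p N) n), ?_, ?_⟩
  · intro m n hm hn
    have h2 : ∀ᶠ N in (U : Filter ℕ), (IsQR (p N) (m * n) ↔ (IsQR (p N) m ↔ IsQR (p N) n)) := by
      filter_upwards [hU (m * n)] with N hN
      have h3 := hpN N
      apply isQR_mul (p N) (hp N)
      · intro hd
        have := Nat.le_of_dvd hm hd
        have : m ≤ m * n := Nat.le_mul_of_pos_right m hn
        omega
      · intro hd
        have := Nat.le_of_dvd hn hd
        have : n ≤ m * n := Nat.le_mul_of_pos_left n hm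
        omega
    have h4 : (∀ᶠ N in (U : Filter ℕ), IsQR (p N) (m * n)) ↔
        ((∀ᶠ N in (U : Filter ℕ), IsQR (p N) m) ↔ (∀ᶠ N in (U : Filter ℕ), IsQR (p N) n)) := by
      by_cases hA : ∀ᶠ N in (U : Filter ℕ), IsQR (p N) m <;>
      by_cases hB : ∀ᶠ N in (U : Filter ℕ), IsQR (p N) n
      · simp only [hA, hB, iff_true]
        filter_upwards [hA, hB, h2] with N a b c
        exact c.2 ⟨fun _ => b, fun _ => a⟩
      · simp only [hA, hB, iff_false, not_true_eq_false]
        intro hC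
        apply hB
        filter_upwards [hA, hC, h2] with N a b c
        exact (c.1 b).1 a
      · simp only [hA, hB, iff_true, iff_false]
        intro hC
        apply hA
        filter_upwards [hB, hC, h2] with N a b c
        exact (c.1 b).2 a
      · simp only [hA, hB, iff_true]
        have hA' := Ultrafilter.eventually_not.2 hA
        have hB' := Ultrafilter.eventually_not.2 hB
        filter_upwards [hA', hB', h2] with N a b c
        exact c.2 ⟨fun x => absurd x a, fun x => absurd x b⟩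
    by_cases hA : ∀ᶠ N in (U : Filter ℕ), IsQR (p N) m <;>
    by_cases hB : ∀ᶠ N in (U : Filter ℕ), IsQR (p N) n <;>
    simp [h4, hA, hB]
  · rintro r hr0 ⟨h2, h3, h4⟩
    simp only [decide_eq_true_eq] at h2 h3 h4
    obtain ⟨N, hN1, hN2, hN3, hN4⟩ := (h2.and (h3.and (h4.and (hU r)))).exists
    exact hr N r hr0 (by omega) ⟨hN1, hN2, hN3⟩

end Pool.Agent.Hhelper89.Lehmer
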