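import Mathlib

/-!
A kernel-checkable certificate format for the following finite statement: a subset of the
triangular grid `{(x,y) : x + y ≤ 8}` (45 points) containing no corner
`(x,y), (x+t,y), (x,y+t)` with `1 ≤ t ≤ 6` misses at least 23 points.
The point `(x,y)` is coded by `s = 9 x + y`.
-/

namespace Pool.Agent.Hhelper89.Lehmer

/-- unpack a number in base `b` (digits nonzero) in front of a list -/
def unp (b : Nat) : Nat → Nat → List Nat → List Nat
  | 0, _, rest => rest
  | fuel + 1, n, rest => if n = 0 then rest else (n % b) :: unp b fuel (n / b) rest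

/-- unpack a list of numbers -/
def expand (b fuel : Nat) : List Nat → List Nat
  | [] => []
  | n :: ns => unp b fuel n (expand b fuel ns)

/-- validity of a corner -/
def okC (s t : Nat) : Bool := Nat.ble 1 t && Nat.ble t 6 && Nat.ble (s / 9 + s % 9 + t) 8

/-- mask of a corner -/
def cmask (s t : Nat) : Nat := (2 ^ s ||| 2 ^ (s + t)) ||| 2 ^ (s + 9 * t)

/-- the stream checker; the state is `(P, U, c)`: `P` is a set of points known to be in `A`, and
at least `c` points of `U` are known to be missing. -/
def runC : List Nat → Nat → Nat → Nat → List (Nat × Nat × Nat) → Bool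
  | [], _, _, _, _ => false
  | k :: ks, P, U, c, stk =>
    if (k - 1) % 8 = 0 then
      if Nat.ble ((k - 1) / 8 / 9 + (k - 1) / 8 % 9) 8 && !(U.testBit ((k - 1) / 8)) then
        if c + 1 = 23 then runC ks (P ||| 2 ^ ((k - 1) / 8)) U c stk
        else runC ks (P ||| 2 ^ ((k - 1) / 8)) U c ((P, U ||| 2 ^ ((k - 1) / 8), c + 1) :: stk)
      else false
    else
      if okC ((k - 1) / 8) ((k - 1) % 8) then
        if (cmask ((k - 1) / 8) ((k - 1) % 8) ^^^ (cmask ((k - 1) / 8) ((k - 1) % 8) &&& P)) &&& U = 0 then
          if c + 1 = 23 || (cmask ((k - 1) / 8) ((k - 1) % 8) ^^^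
              (cmask ((k - 1) / 8) ((k - 1) % 8) &&& P)) = 0 then
            match stk with
            | [] => true
            | (P', U', c') :: stk' => runC ks P' U' c' stk'
          else runC ks P (U ||| (cmask ((k - 1) / 8) ((k - 1) % 8) ^^^
              (cmask ((k - 1) / 8) ((k - 1) % 8) &&& P))) (c + 1) stk
        else false
      else false

/-- the missing points -/
def missing (A : Nat → Bool) : Finset Nat :=
  (Finset.range 81).filter (fun s => s / 9 + s % 9 ≤ 8 ∧ A s = false)

/-- the invariant of a state -/
def Inv (A : Nat → Bool) (P U c : Nat) : Prop :=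
  (∀ i, P.testBit i = true → A i = true) ∧
    c ≤ ((missing A).filter (fun i => U.testBit i = true)).card

lemma Inv.true_branch {A : Nat → Bool} {P U c s : Nat} (h : Inv A P U c) (hs : A s = true) :
    Inv A (P ||| 2 ^ s) U c := by
  refine ⟨fun i hi => ?_, h.2⟩
  rw [Nat.testBit_or, Bool.or_eq_true, Nat.testBit_two_pow] at hi
  rcases hi with hi | hi
  · exact h.1 i hi
  · have : s = i := by simpa using hi
    exact this ▸ hs

lemma Inv.add {A : Nat → Bool} {P U c R : Nat} (h : Inv A P U c) (hR : R &&& U = 0) (i : Nat)
    (hi : R.testBit i = true) (him : i ∈ missing A) : Inv A P (U ||| R) (c + 1) := by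
  refine ⟨h.1, ?_⟩
  have hiU : U.testBit i = false := by
    have h1 : (R &&& U).testBit i = false := by rw [hR]; exact Nat.zero_testBit i
    rw [Nat.testBit_and, hi, Bool.true_and] at h1
    exact h1
  have hsub : insert i ((missing A).filter (fun i => U.testBit i = true)) ⊆
      (missing A).filter (fun i => (U ||| R).testBit i = true) := by
    intro j hj
    rw [Finset.mem_insert] at hj
    rw [Finset.mem_filter, Nat.testBit_or, Bool.or_eq_true]
    rcases hj with rfl | hj
    · exact ⟨him, Or.inr hi⟩
    · rw [Finset.mem_filter] at hj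
      exact ⟨hj.1, Or.inl hj.2⟩
  have hni : i ∉ (missing A).filter (fun i => U.testBit i = true) := by
    rw [Finset.mem_filter, hiU]
    simp
  calc c + 1 ≤ ((missing A).filter (fun i => U.testBit i = true)).card + 1 := by
        have := h.2; omega
    _ = (insert i ((missing A).filter (fun i => U.testBit i = true))).card := by
        rw [Finset.card_insert_of_notMem hni]
    _ ≤ _ := Finset.card_le_card hsub

lemma Inv.false_branch {A : Nat → Bool} {P U c s : Nat} (h : Inv A P U c)
    (hv : s / 9 + s % 9 ≤ 8) (hU : U.testBit s = false) (hs : A s = false) :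
    Inv A P (U ||| 2 ^ s) (c + 1) := by
  apply h.add (R := 2 ^ s) _ s
  · rw [Nat.testBit_two_pow]; simp
  · rw [missing, Finset.mem_filter, Finset.mem_range]
    refine ⟨?_, hv, hs⟩
    omega
  · apply Nat.eq_of_testBit_eq
    intro i
    rw [Nat.testBit_and, Nat.testBit_two_pow, Nat.zero_testBit]
    by_cases h1 : s = i
    · subst h1; simp [hU]
    · simp [h1]

lemma cmask_testBit (s t i : Nat) :
    (cmask s t).testBit i = (decide (s = i) || decide (s + t = i) || decide (s + 9 * t = i)) := by
  rw [cmask, Nat.testBit_or, Nat.testBit_or, Nat.testBit_two_pow, Nat.testBit_two_pow,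
    Nat.testBit_two_pow]

/-- the corner-free hypothesis -/
def CornerFree (A : Nat → Bool) : Prop :=
  ∀ s t : Nat, 1 ≤ t → t ≤ 6 → s / 9 + s % 9 + t ≤ 8 →
    ¬ (A s = true ∧ A (s + t) = true ∧ A (s + 9 * t) = true)

lemma Inv.corner {A : Nat → Bool} (hA : CornerFree A) {P U c s t : Nat} (h : Inv A P U c)
    (hok : okC s t = true) (hR : (cmask s t ^^^ (cmask s t &&& P)) &&& U = 0) :
    (cmask s t ^^^ (cmask s t &&& P)) ≠ 0 ∧
      Inv A P (U ||| (cmask s t ^^^ (cmask s t &&& P))) (c + 1) := by
  simp only [okC, Bool.and_eq_true, Nat.ble_eq] at hok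
  obtain ⟨⟨h1, h2⟩, h3⟩ := hok
  -- some vertex is missing
  obtain ⟨i, hi, hAi, hv⟩ : ∃ i, (cmask s t).testBit i = true ∧ A i = false ∧ i / 9 + i % 9 ≤ 8 := by
    by_contra hcon
    push Not at hcon
    apply hA s t h1 h2 h3
    refine ⟨?_, ?_, ?_⟩
    · by_contra h4
      have h4' : A s = false := by simpa using h4
      have := hcon s (by rw [cmask_testBit]; simp) h4'
      omega
    · by_contra h4
      have h4' : A (s + t) = false := by simpa using h4
      have := hcon (s + t) (by rw [cmask_testBit]; simp) h4'
      omega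
    · by_contra h4
      have h4' : A (s + 9 * t) = false := by simpa using h4
      have := hcon (s + 9 * t) (by rw [cmask_testBit]; simp) h4'
      omega
  have hPi : P.testBit i = false := by
    by_contra h4
    have h5 : P.testBit i = true := by simpa using h4
    rw [h.1 i h5] at hAi
    exact absurd hAi (by simp)
  have hRi : (cmask s t ^^^ (cmask s t &&& P)).testBit i = true := by
    rw [Nat.testBit_xor, Nat.testBit_and, hi, hPi]; rfl
  refine ⟨?_, ?_⟩
  · intro h0
    rw [h0, Nat.zero_testBit] at hRi
    exact absurd hRi (by simp)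
  · apply h.add hR i hRi
    rw [missing, Finset.mem_filter, Finset.mem_range]
    refine ⟨by omega, hv, hAi⟩

lemma Inv.card {A : Nat → Bool} {P U c : Nat} (h : Inv A P U c) : c ≤ (missing A).card :=
  h.2.trans (Finset.card_le_card (Finset.filter_subset _ _))

theorem runC_sound (A : Nat → Bool) (hA : CornerFree A) :
    ∀ (ks : List Nat) (P U c : Nat) (stk : List (Nat × Nat × Nat)),
      runC ks P U c stk = true →
      (Inv A P U c ∨ ∃ x ∈ stk, Inv A x.1 x.2.1 x.2.2) → 23 ≤ (missing A).card := by
  intro ks
  induction ks with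
  | nil => intro P U c stk h; simp [runC] at h
  | cons k ks ih =>
    intro P U c stk h hinv
    rw [runC.eq_def] at h
    dsimp only at h
    split_ifs at h with h1 h2 h3 h4 h5 h6
    · -- branch, c + 1 = 23
      rw [Bool.and_eq_true, Nat.ble_eq, Bool.not_eq_true'] at h2
      rcases hinv with hinv | hinv
      · cases hs : A ((k - 1) / 8) with
        | true => exact ih _ _ _ _ h (Or.inl (hinv.true_branch hs))
        | false =>
          have := (hinv.false_branch h2.1 h2.2 hs).card
          omega
      · exact ih _ _ _ _ h (Or.inr hinv)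
    · rw [Bool.and_eq_true, Nat.ble_eq, Bool.not_eq_true'] at h2
      rcases hinv with hinv | ⟨x, hx, hinv⟩
      · cases hs : A ((k - 1) / 8) with
        | true => exact ih _ _ _ _ h (Or.inl (hinv.true_branch hs))
        | false =>
          exact ih _ _ _ _ h (Or.inr ⟨_, List.mem_cons_self, hinv.false_branch h2.1 h2.2 hs⟩)
      · exact ih _ _ _ _ h (Or.inr ⟨x, List.mem_cons_of_mem _ hx, hinv⟩)
    · -- corner step closing the leaf
      have key : Inv A P U c → 23 ≤ (missing A).card := by
        intro hi
        have hc := hi.corner hA h4 h5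
        rw [Bool.or_eq_true, decide_eq_true_eq, decide_eq_true_eq] at h6
        rcases h6 with h6 | h6
        · have := hc.2.card
          omega
        · exact absurd h6 hc.1
      match stk, h, hinv with
      | [], _, hinv =>
        rcases hinv with hinv | ⟨x, hx, _⟩
        · exact key hinv
        · simp at hx
      | (P', U', c') :: stk', h, hinv =>
        rcases hinv with hinv | ⟨x, hx, hinv⟩
        · exact key hinv
        · rw [List.mem_cons] at hx
          rcases hx with rfl | hx
          · exact ih _ _ _ _ h (Or.inl hinv)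
          · exact ih _ _ _ _ h (Or.inr ⟨x, hx, hinv⟩)
    · rcases hinv with hinv | hinv
      · exact ih _ _ _ _ h (Or.inl (hinv.corner hA h4 h5).2)
      · exact ih _ _ _ _ h (Or.inr hinv)

lemma inv_init (A : Nat → Bool) : Inv A 0 0 0 :=
  ⟨fun i hi => by rw [Nat.zero_testBit] at hi; exact absurd hi (by simp), Nat.zero_le _⟩

end Pool.Agent.Hhelper89.Lehmer
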