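import Mathlib

/-! Definitions for Lehmer's question on triples of quadratic residues. -/

namespace Pool.Agent.Hhelper89.Lehmer

/-- `r` is a quadratic residue of `p`: `r ≢ 0 (mod p)` and `x ^ 2 ≡ r (mod p)` is solvable. -/
def IsQR (p r : ℕ) : Prop := ¬ p ∣ r ∧ ∃ x : ℕ, x ^ 2 ≡ r [MOD p]

/-- The property of the positive integer `N` in the definition of `Ω(a,b)`: there is `p₀` such that
for every prime `p > p₀` some `r` with `1 ≤ r ≤ N` makes `r`, `r+a`, `r+b` all quadratic residues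
of `p`. -/
def TripleBound (a b N : ℕ) : Prop :=
  ∃ p₀ : ℕ, ∀ p : ℕ, p.Prime → p₀ < p →
    ∃ r : ℕ, 1 ≤ r ∧ r ≤ N ∧ IsQR p r ∧ IsQR p (r + a) ∧ IsQR p (r + b)

/-- `Ω(a,b) ∈ ℕ ∪ {∞}`: the least positive integer `N` with the property `TripleBound a b N`,
and `⊤` if there is none. -/
noncomputable def Omega (a b : ℕ) : ℕ∞ := sInf {N : ℕ∞ | ∃ M : ℕ, 0 < M ∧ TripleBound a b M ∧ N = M}

/-- The exceptional pairs; each condition is on the unordered pair of residues. -/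
def Exceptional (a b : ℕ) : Prop :=
  ({a % 3, b % 3} : Finset ℕ) = {1, 2} ∨
  ({a % 5, b % 5} : Finset ℕ) = {1, 3} ∨ ({a % 5, b % 5} : Finset ℕ) = {2, 3} ∨
  ({a % 5, b % 5} : Finset ℕ) = {2, 4} ∨
  ({a % 7, b % 7} : Finset ℕ) = {1, 5} ∨ ({a % 7, b % 7} : Finset ℕ) = {2, 3} ∨
  ({a % 7, b % 7} : Finset ℕ) = {4, 6}

end Pool.Agent.Hhelper89.Lehmer
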