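import Pool.Agent.Hhelper89.Lehmer.Count

/-!
A kernel-checkable refutation format for the homogeneous lattice game.
The point `(x,y,z)` is coded by `s = 256 x + 16 y + z`; `V s` is the sign at that point.
Rules: corner rule `E` (`V s`, `V (s+256t)`, `V (s+16t)` are not all equal to `col t`), and
homogeneity rule `H` (`V (k s) = (V k == V s)`).
A token is `((s * 16 + t) * 4 + j) * 4 + type + 1`, with type `0` for `E`, `1` for `H` and `2`
for branching on `s`; `j` says which of the three values is derived.
-/

namespace Pool.Agent.Hhelper89.Lehmer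

/-- outcome of a step -/
inductive Out where
  | fail : Out
  | close : Out
  | cont (P M : Nat) : Out
  | branch (v : Nat) : Out

/-- known value of `v` -/
def known (P M v : Nat) (b : Bool) : Bool := if b then P.testBit v else M.testBit v

/-- record that `w` has value `b` -/
def derive (P M w : Nat) (b : Bool) : Out :=
  if known P M w (!b) then .close
  else if b then .cont (P ||| 2 ^ w) M else .cont P (M ||| 2 ^ w)

/-- corner step: `u` and `v` have value `c`, so `w` has not -/
def stepE3 (P M u v w : Nat) (c : Bool) : Out :=
  if known P M u c && known P M v c then derive P M w (!c) else .fail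

/-- homogeneity step: the three values have product `+` -/
def stepH3 (P M u v w : Nat) : Out :=
  if (known P M u true && known P M v true) || (known P M u false && known P M v false) then
    derive P M w true
  else if (known P M u true && known P M v false) || (known P M u false && known P M v true) then
    derive P M w false
  else .fail

/-- corner step -/
def stepE (col : Nat → Bool) (okE : Nat → Nat → Bool) (P M s t j : Nat) : Out :=
  if okE s t then
    if j = 0 then stepE3 P M (s + 256 * t) (s + 16 * t) s (col t)
    else if j = 1 then stepE3 P M s (s + 16 * t) (s + 256 * t) (col t)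
    else stepE3 P M s (s + 256 * t) (s + 16 * t) (col t)
  else .fail

/-- homogeneity step -/
def stepH (okH : Nat → Nat → Bool) (P M k s j : Nat) : Out :=
  if okH k s then
    if j = 0 then stepH3 P M s (k * s) k
    else if j = 1 then stepH3 P M k (k * s) s
    else stepH3 P M k s (k * s)
  else .fail

/-- one step -/
def stepD (col : Nat → Bool) (okE okH : Nat → Nat → Bool) (P M k : Nat) : Out :=
  if (k - 1) % 4 = 2 then .branch ((k - 1) / 256)
  else if (k - 1) % 4 = 0 then
    stepE col okE P M ((k - 1) / 256) ((k - 1) / 16 % 16) ((k - 1) / 4 % 4)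
  else stepH okH P M ((k - 1) / 16 % 16) ((k - 1) / 256) ((k - 1) / 4 % 4)

/-- the stream checker -/
def runD (col : Nat → Bool) (okE okH : Nat → Nat → Bool) :
    List Nat → Nat → Nat → List (Nat × Nat) → Bool
  | [], _, _, _ => false
  | k :: ks, P, M, stk =>
    match stepD col okE okH P M k with
    | .fail => false
    | .close =>
      match stk with
      | [] => true
      | p :: stk' => runD col okE okH ks p.1 p.2 stk'
    | .cont P' M' => runD col okE okH ks P' M' stk
    | .branch v => runD col okE okH ks (P ||| 2 ^ v) M ((P, M ||| 2 ^ v) :: stk)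

/-- consistency of a state with `V` -/
def Cons (V : Nat → Bool) (P M : Nat) : Prop :=
  (∀ i, P.testBit i = true → V i = true) ∧ (∀ i, M.testBit i = true → V i = false)

lemma Cons.addP {V : Nat → Bool} {P M w : Nat} (h : Cons V P M) (hw : V w = true) :
    Cons V (P ||| 2 ^ w) M := by
  refine ⟨fun i hi => ?_, h.2⟩
  rw [Nat.testBit_or, Bool.or_eq_true, Nat.testBit_two_pow] at hi
  rcases hi with hi | hi
  · exact h.1 i hi
  · have : w = i := by simpa using hi
    exact this ▸ hw

lemma Cons.addM {V : Nat → Bool} {P M w : Nat} (h : Cons V P M) (hw : V w = false) :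
    Cons V P (M ||| 2 ^ w) := by
  refine ⟨h.1, fun i hi => ?_⟩
  rw [Nat.testBit_or, Bool.or_eq_true, Nat.testBit_two_pow] at hi
  rcases hi with hi | hi
  · exact h.2 i hi
  · have : w = i := by simpa using hi
    exact this ▸ hw

lemma Cons.known {V : Nat → Bool} {P M v : Nat} {b : Bool} (h : Cons V P M)
    (hk : known P M v b = true) : V v = b := by
  cases b with
  | true => exact h.1 v (by simpa [Lehmer.known] using hk)
  | false => exact h.2 v (by simpa [Lehmer.known] using hk)

/-- what a good outcome means -/
def Good (V : Nat → Bool) : Out → Prop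
  | .fail => True
  | .close => False
  | .cont P M => Cons V P M
  | .branch _ => True

lemma good_derive {V : Nat → Bool} {P M w : Nat} {b : Bool} (h : Cons V P M) (hw : V w = b) :
    Good V (derive P M w b) := by
  unfold derive
  split_ifs with h1 h2
  · have := h.known h1
    rw [hw] at this
    cases b <;> simp at this
  · subst h2; exact h.addP hw
  · have : b = false := by simpa using h2
    subst this; exact h.addM hw

lemma good_stepE3 {V : Nat → Bool} {P M u v w : Nat} {c : Bool} (h : Cons V P M)
    (hc : ¬ (V u = c ∧ V v = c ∧ V w = c)) : Good V (stepE3 P M u v w c) := by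
  unfold stepE3
  split_ifs with h1
  · rw [Bool.and_eq_true] at h1
    apply good_derive h
    have hu := h.known h1.1
    have hv := h.known h1.2
    have : V w ≠ c := fun hw => hc ⟨hu, hv, hw⟩
    revert this
    cases V w <;> cases c <;> simp
  · trivial

lemma good_stepH3 {V : Nat → Bool} {P M u v w : Nat} (h : Cons V P M)
    (hc : V w = (V u == V v)) : Good V (stepH3 P M u v w) := by
  unfold stepH3
  split_ifs with h1 h2
  · apply good_derive h
    rw [Bool.or_eq_true, Bool.and_eq_true, Bool.and_eq_true] at h1
    rw [hc]
    rcases h1 with ⟨a, b⟩ | ⟨a, b⟩ <;> rw [h.known a, h.known b] <;> rfl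
  · apply good_derive h
    rw [Bool.or_eq_true, Bool.and_eq_true, Bool.and_eq_true] at h2
    rw [hc]
    rcases h2 with ⟨a, b⟩ | ⟨a, b⟩ <;> rw [h.known a, h.known b] <;> rfl
  · trivial

/-- the corner hypothesis -/
def HypE (V : Nat → Bool) (col : Nat → Bool) (okE : Nat → Nat → Bool) : Prop :=
  ∀ s t, okE s t = true → ¬ (V s = col t ∧ V (s + 256 * t) = col t ∧ V (s + 16 * t) = col t)

/-- the homogeneity hypothesis -/
def HypH (V : Nat → Bool) (okH : Nat → Nat → Bool) : Prop :=
  ∀ k s, okH k s = true → V (k * s) = (V k == V s)

lemma good_stepD {V : Nat → Bool} {col : Nat → Bool} {okE okH : Nat → Nat → Bool}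
    (hE : HypE V col okE) (hH : HypH V okH) {P M : Nat} (k : Nat) (h : Cons V P M) :
    Good V (stepD col okE okH P M k) := by
  unfold stepD
  split_ifs with h1 h2
  · trivial
  · unfold stepE
    split_ifs with h3 h4 h5
    · apply good_stepE3 h
      intro hh
      exact hE _ _ h3 ⟨hh.2.2, hh.1, hh.2.1⟩
    · apply good_stepE3 h
      intro hh
      exact hE _ _ h3 ⟨hh.1, hh.2.2, hh.2.1⟩
    · apply good_stepE3 h
      exact hE _ _ h3
    · trivial
  · unfold stepH
    split_ifs with h3 h4 h5
    · apply good_stepH3 h
      rw [hH _ _ h3]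
      cases V ((k - 1) / 16 % 16) <;> cases V ((k - 1) / 256) <;> rfl
    · apply good_stepH3 h
      rw [hH _ _ h3]
      cases V ((k - 1) / 16 % 16) <;> cases V ((k - 1) / 256) <;> rfl
    · apply good_stepH3 h
      exact hH _ _ h3
    · trivial

theorem runD_sound {V : Nat → Bool} {col : Nat → Bool} {okE okH : Nat → Nat → Bool}
    (hE : HypE V col okE) (hH : HypH V okH) :
    ∀ (ks : List Nat) (P M : Nat) (stk : List (Nat × Nat)),
      runD col okE okH ks P M stk = true →
      ¬ (Cons V P M ∨ ∃ x ∈ stk, Cons V x.1 x.2) := by
  intro ks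
  induction ks with
  | nil => intro P M stk h; simp [runD] at h
  | cons k ks ih =>
    intro P M stk h hcons
    rw [runD.eq_def] at h
    dsimp only at h
    have hg : Cons V P M → Good V (stepD col okE okH P M k) := fun hc => good_stepD hE hH k hc
    revert h hg
    cases stepD col okE okH P M k with
    | fail => intro h; simp at h
    | close =>
      intro h hg
      match stk, h, hcons with
      | [], _, hcons =>
        rcases hcons with hcons | ⟨x, hx, _⟩
        · exact hg hcons
        · simp at hx
      | p :: stk', h, hcons =>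
        rcases hcons with hcons | ⟨x, hx, hcons⟩
        · exact hg hcons
        · rw [List.mem_cons] at hx
          rcases hx with rfl | hx
          · exact ih _ _ _ h (Or.inl hcons)
          · exact ih _ _ _ h (Or.inr ⟨x, hx, hcons⟩)
    | cont P' M' =>
      intro h hg
      rcases hcons with hcons | hcons
      · exact ih _ _ _ h (Or.inl (hg hcons))
      · exact ih _ _ _ h (Or.inr hcons)
    | branch v =>
      intro h _
      rcases hcons with hcons | ⟨x, hx, hcons⟩
      · cases hv : V v with
        | true => exact ih _ _ _ h (Or.inl (hcons.addP hv))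
        | false => exact ih _ _ _ h (Or.inr ⟨_, List.mem_cons_self, hcons.addM hv⟩)
      · exact ih _ _ _ h (Or.inr ⟨x, List.mem_cons_of_mem _ hx, hcons⟩)

/-! ### the concrete rules -/

/-- sign of `f (60 / t)`, and of `f 7 * f (60 / (t/7))` for `t = 7, 14` -/
def colT (c2 c3 c5 c7 : Bool) (t : Nat) : Bool :=
  if t = 1 then (c3 == c5)
  else if t = 2 then (c2 == (c3 == c5))
  else if t = 3 then c5
  else if t = 4 then (c3 == c5)
  else if t = 5 then c3
  else if t = 6 then (c2 == c5)
  else if t = 10 then (c2 == c3)
  else if t = 12 then c5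
  else if t = 7 then (c7 == (c3 == c5))
  else (c7 == (c2 == (c3 == c5)))

/-- base corner sizes -/
def baseT (t : Nat) : Bool :=
  Nat.beq t 1 || Nat.beq t 2 || Nat.beq t 3 || Nat.beq t 4 || Nat.beq t 5 || Nat.beq t 6 ||
    Nat.beq t 10 || Nat.beq t 12

/-- validity of corner rules; `use7 = 0`: no sizes 7, 14; `use7 = 1`: with `z = 0` and class
`(α, β)` up to a unit; `use7 = 2`: class `(α, β)`. -/
def okEE (use7 α β : Nat) (s t : Nat) : Bool :=
  !(Nat.beq s 0) && Nat.ble ((s / 16) % 16 + t) 15 &&
    (baseT t ||
      ((Nat.beq t 7 || Nat.beq t 14) && (Nat.beq use7 2 || (Nat.beq use7 1 && Nat.beq (s % 16) 0)) &&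
        Nat.beq ((s / 256 * α + (s / 16) % 16 * β + s % 16) % 7) 0))

/-- validity of homogeneity rules -/
def okHH (k s : Nat) : Bool :=
  !(Nat.beq k 0) && Nat.ble k 15 && !(Nat.beq s 0) && Nat.ble (k * (s % 16)) 15 &&
    Nat.ble (k * ((s / 16) % 16)) 15

end Pool.Agent.Hhelper89.Lehmer
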