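import Pool.Agent.Hhelper89.Lehmer.Dpll
import Pool.Agent.Hhelper89.Lehmer.Density

/-!
The rules of `Dpll.lean` hold for `V s = f (x A + y B + z)`, `s = 256 x + 16 y + z`, when `f` is a
completely multiplicative sign function that avoids `+++` at `(60 A, 60 B)`.
-/

namespace Pool.Agent.Hhelper89.Lehmer

/-- the number at the point `s` -/
def pt (A B s : ℕ) : ℕ := s / 256 * A + (s / 16) % 16 * B + s % 16

/-- avoidance of `+++` -/
def Avoids (f : ℕ → Bool) (a b : ℕ) : Prop :=
  ∀ r, 0 < r → ¬ (f r = true ∧ f (r + a) = true ∧ f (r + b) = true)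

lemma Avoids.swap {f : ℕ → Bool} {a b : ℕ} (h : Avoids f a b) : Avoids f b a :=
  fun r hr hh => h r hr ⟨hh.1, hh.2.2, hh.2.1⟩

lemma pt_add_x (A B s t : ℕ) : pt A B (s + 256 * t) = pt A B s + t * A := by
  unfold pt
  have h1 : (s + 256 * t) / 256 = s / 256 + t := by omega
  have h2 : ((s + 256 * t) / 16) % 16 = (s / 16) % 16 := by omega
  have h3 : (s + 256 * t) % 16 = s % 16 := by omega
  rw [h1, h2, h3]; ring

lemma pt_add_y (A B s t : ℕ) (h : (s / 16) % 16 + t ≤ 15) :
    pt A B (s + 16 * t) = pt A B s + t * B := by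
  unfold pt
  have h1 : (s + 16 * t) / 256 = s / 256 := by omega
  have h2 : ((s + 16 * t) / 16) % 16 = (s / 16) % 16 + t := by omega
  have h3 : (s + 16 * t) % 16 = s % 16 := by omega
  rw [h1, h2, h3]; ring

lemma pt_mul (A B k s : ℕ) (h1 : k * (s % 16) ≤ 15) (h2 : k * ((s / 16) % 16) ≤ 15) :
    pt A B (k * s) = k * pt A B s := by
  unfold pt
  obtain ⟨x, y, z, hx, hy, hz, hs⟩ : ∃ x y z, x = s / 256 ∧ y = (s / 16) % 16 ∧ z = s % 16 ∧
      s = 256 * x + 16 * y + z := ⟨_, _, _, rfl, rfl, rfl, by omega⟩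
  rw [← hz] at h1
  rw [← hy] at h2
  rw [← hx, ← hy, ← hz]
  have e : k * s = 256 * (k * x) + 16 * (k * y) + k * z := by rw [hs]; ring
  have h3 : (k * s) / 256 = k * x := by omega
  have h4 : ((k * s) / 16) % 16 = k * y := by omega
  have h5 : (k * s) % 16 = k * z := by omega
  rw [h3, h4, h5]; ring

lemma pt_pos {A B s : ℕ} (hA : 0 < A) (hB : 0 < B) (hs : s ≠ 0) : 0 < pt A B s := by
  unfold pt
  by_contra h
  have h0 : s / 256 * A + (s / 16) % 16 * B + s % 16 = 0 := by omega
  have h1 : s / 256 * A = 0 := by omega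
  have h2 : (s / 16) % 16 * B = 0 := by omega
  have h3 : s % 16 = 0 := by omega
  rcases Nat.mul_eq_zero.1 h1 with h1 | h1
  · rcases Nat.mul_eq_zero.1 h2 with h2 | h2 <;> omega
  · omega

lemma hypH (f : ℕ → Bool) (hf : MulSign f) {A B : ℕ} (hA : 0 < A) (hB : 0 < B) :
    HypH (fun s => f (pt A B s)) okHH := by
  intro k s h
  simp only [okHH, Bool.and_eq_true, Bool.not_eq_true', Nat.ble_eq] at h
  obtain ⟨⟨⟨⟨h1, h2⟩, h3⟩, h4⟩, h5⟩ := h
  have hk : k ≠ 0 := by
    rintro rfl; simp at h1
  have hs : s ≠ 0 := by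
    rintro rfl; simp at h3
  have hkk : pt A B k = k := by
    unfold pt
    have e1 : k / 256 = 0 := by omega
    have e2 : (k / 16) % 16 = 0 := by omega
    have e3 : k % 16 = k := by omega
    rw [e1, e2, e3]; ring
  beta_reduce
  rw [pt_mul A B k s h4 h5, hf k _ (Nat.pos_of_ne_zero hk) (pt_pos hA hB hs), hkk]

/-- base corners -/
lemma base_corner {f : ℕ → Bool} (hf : MulSign f) {A B : ℕ} (hav : Avoids f (60 * A) (60 * B))
    {t q : ℕ} (htq : t * q = 60) {n : ℕ} (hn : 0 < n) :
    ¬ (f n = f q ∧ f (n + t * A) = f q ∧ f (n + t * B) = f q) := by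
  rintro ⟨h1, h2, h3⟩
  have hq : 0 < q := Nat.pos_of_ne_zero (by rintro rfl; simp at htq)
  apply hav (q * n) (Nat.mul_pos hq hn)
  refine ⟨?_, ?_, ?_⟩
  · rw [hf q n hq hn, h1]; cases f q <;> rfl
  · have : q * n + 60 * A = q * (n + t * A) := by rw [← htq]; ring
    rw [this, hf q _ hq (by omega), h2]; cases f q <;> rfl
  · have : q * n + 60 * B = q * (n + t * B) := by rw [← htq]; ring
    rw [this, hf q _ hq (by omega), h3]; cases f q <;> rfl

/-- corners of size divisible by 7 -/
lemma seven_corner {f : ℕ → Bool} (hf : MulSign f) {A B : ℕ} (hav : Avoids f (60 * A) (60 * B))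
    {t q : ℕ} (htq : t * q = 60) {n : ℕ} (hn : 0 < n) (h7 : 7 ∣ n) :
    ¬ (f n = (f 7 == f q) ∧ f (n + 7 * t * A) = (f 7 == f q) ∧ f (n + 7 * t * B) = (f 7 == f q)) := by
  obtain ⟨m, rfl⟩ := h7
  have hm : 0 < m := by omega
  rintro ⟨h1, h2, h3⟩
  apply base_corner hf hav htq hm
  have e2 : 7 * m + 7 * t * A = 7 * (m + t * A) := by ring
  have e3 : 7 * m + 7 * t * B = 7 * (m + t * B) := by ring
  rw [hf 7 _ (by norm_num) hm] at h1
  rw [e2, hf 7 _ (by norm_num) (by omega)] at h2
  rw [e3, hf 7 _ (by norm_num) (by omega)] at h3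
  refine ⟨?_, ?_, ?_⟩
  · revert h1; cases f 7 <;> cases f m <;> cases f q <;> simp
  · revert h2; cases f 7 <;> cases f (m + t * A) <;> cases f q <;> simp
  · revert h3; cases f 7 <;> cases f (m + t * B) <;> cases f q <;> simp

lemma sq_true {f : ℕ → Bool} (hf : MulSign f) : f 4 = true := by
  have := hf 2 2 (by norm_num) (by norm_num)
  rw [show (4 : ℕ) = 2 * 2 by norm_num, this]
  cases f 2 <;> rfl

/-- the class condition modulo 7 used by the certificates -/
def ClassOK (A B use7 α β : ℕ) : Prop :=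
  (use7 = 2 → A % 7 = α % 7 ∧ B % 7 = β % 7) ∧
  (use7 = 1 → ∃ u : ℕ, A % 7 = (u * α) % 7 ∧ B % 7 = (u * β) % 7)

lemma hypE (f : ℕ → Bool) (hf : MulSign f) {A B : ℕ} (hA : 0 < A) (hB : 0 < B)
    (hav : Avoids f (60 * A) (60 * B)) {use7 α β : ℕ} (hcl : ClassOK A B use7 α β) :
    HypE (fun s => f (pt A B s)) (colT (f 2) (f 3) (f 5) (f 7)) (okEE use7 α β) := by
  have f4 := sq_true hf
  have f6 : f 6 = (f 2 == f 3) := hf 2 3 (by norm_num) (by norm_num)
  have f10 : f 10 = (f 2 == f 5) := hf 2 5 (by norm_num) (by norm_num)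
  have f12 : f 12 = f 3 := by
    have := hf 4 3 (by norm_num) (by norm_num)
    rw [show (12 : ℕ) = 4 * 3 by norm_num, this, f4]; cases f 3 <;> rfl
  have f15 : f 15 = (f 3 == f 5) := hf 3 5 (by norm_num) (by norm_num)
  have f20 : f 20 = f 5 := by
    have := hf 4 5 (by norm_num) (by norm_num)
    rw [show (20 : ℕ) = 4 * 5 by norm_num, this, f4]; cases f 5 <;> rfl
  have f30 : f 30 = (f 2 == (f 3 == f 5)) := by
    have := hf 2 15 (by norm_num) (by norm_num)
    rw [show (30 : ℕ) = 2 * 15 by norm_num, this, f15]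
  have f60 : f 60 = (f 3 == f 5) := by
    have := hf 4 15 (by norm_num) (by norm_num)
    rw [show (60 : ℕ) = 4 * 15 by norm_num, this, f4, f15]; cases (f 3 == f 5) <;> rfl
  intro s t h
  simp only [okEE, baseT, Bool.and_eq_true, Bool.or_eq_true, Bool.not_eq_true', Nat.ble_eq,
    Nat.beq_eq] at h
  obtain ⟨⟨h1, h2⟩, h3⟩ := h
  have hs : s ≠ 0 := by
    rintro rfl; simp at h1
  have hn : 0 < pt A B s := pt_pos hA hB hs
  beta_reduce
  rw [pt_add_x, pt_add_y A B s t h2]
  rcases h3 with (((((((h3 | h3) | h3) | h3) | h3) | h3) | h3) | h3) | h3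
  · subst h3; have := base_corner hf hav (t := 1) (q := 60) (by norm_num) hn; rw [f60] at this
    simpa [colT] using this
  · subst h3; have := base_corner hf hav (t := 2) (q := 30) (by norm_num) hn; rw [f30] at this
    simpa [colT] using this
  · subst h3; have := base_corner hf hav (t := 3) (q := 20) (by norm_num) hn; rw [f20] at this
    simpa [colT] using this
  · subst h3; have := base_corner hf hav (t := 4) (q := 15) (by norm_num) hn; rw [f15] at this
    simpa [colT] using this
  · subst h3; have := base_corner hf hav (t := 5) (q := 12) (by norm_num) hn; rw [f12] at this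
    simpa [colT] using this
  · subst h3; have := base_corner hf hav (t := 6) (q := 10) (by norm_num) hn; rw [f10] at this
    simpa [colT] using this
  · subst h3; have := base_corner hf hav (t := 10) (q := 6) (by norm_num) hn; rw [f6] at this
    simpa [colT] using this
  · subst h3; have := base_corner hf hav (t := 12) (q := 5) (by norm_num) hn
    simpa [colT] using this
  · obtain ⟨⟨h4, h5⟩, h6⟩ := h3
    have h7 : 7 ∣ pt A B s := by
      unfold pt
      rw [Nat.dvd_iff_mod_eq_zero]
      rcases h5 with h5 | ⟨h5, h50⟩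
      · obtain ⟨ha, hb⟩ := hcl.1 h5
        rw [Nat.add_mod, Nat.add_mod (s / 256 * A), Nat.mul_mod, ha, Nat.mul_mod (s / 16 % 16), hb]
        rw [Nat.add_mod, Nat.add_mod (s / 256 * α), Nat.mul_mod, Nat.mul_mod (s / 16 % 16)] at h6
        exact h6
      · obtain ⟨u, ha, hb⟩ := hcl.2 h5
        rw [h50, Nat.add_zero] at h6 ⊢
        rw [Nat.add_mod, Nat.mul_mod, ha, Nat.mul_mod (s / 16 % 16), hb]
        have e1 : (s / 256 * (u * α) + s / 16 % 16 * (u * β)) % 7 = 0 := by
          have : s / 256 * (u * α) + s / 16 % 16 * (u * β) =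
              u * (s / 256 * α + s / 16 % 16 * β) := by ring
          rw [this, Nat.mul_mod, h6]; simp
        rw [Nat.add_mod, Nat.mul_mod, Nat.mul_mod (s / 16 % 16)] at e1
        exact e1
    rcases h4 with h4 | h4
    · subst h4; have := seven_corner hf hav (t := 1) (q := 60) (by norm_num) hn h7; rw [f60] at this
      simpa [colT] using this
    · subst h4; have := seven_corner hf hav (t := 2) (q := 30) (by norm_num) hn h7; rw [f30] at this
      simpa [colT] using this

/-- initial states -/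
def init3 (c2 c3 c5 : Bool) : Nat × Nat :=
  (2 + (if c2 then 4 else 0) + (if c3 then 8 else 0) + (if c5 then 32 else 0),
    (if c2 then 0 else 4) + (if c3 then 0 else 8) + (if c5 then 0 else 32))

/-- initial states with the sign of 7 -/
def init4 (c2 c3 c5 c7 : Bool) : Nat × Nat :=
  (2 + (if c2 then 4 else 0) + (if c3 then 8 else 0) + (if c5 then 32 else 0) +
      (if c7 then 128 else 0),
    (if c2 then 0 else 4) + (if c3 then 0 else 8) + (if c5 then 0 else 32) +
      (if c7 then 0 else 128))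

lemma cons_init4 (V : Nat → Bool) (h1 : V 1 = true) : Cons V (init4 (V 2) (V 3) (V 5) (V 7)).1
    (init4 (V 2) (V 3) (V 5) (V 7)).2 := by
  have h0 : Cons V 0 0 := ⟨fun i hi => by simp at hi, fun i hi => by simp at hi⟩
  have e : ∀ P M w, Cons V P M → Cons V (if V w then P ||| 2 ^ w else P)
      (if V w then M else M ||| 2 ^ w) := by
    intro P M w h
    cases hw : V w with
    | true => simpa using h.addP hw
    | false => simpa using h.addM hw
  have := e _ _ 7 (e _ _ 5 (e _ _ 3 (e _ _ 2 (h0.addP h1))))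
  revert this
  unfold init4
  cases V 2 <;> cases V 3 <;> cases V 5 <;> cases V 7 <;> exact fun h => h

lemma cons_init3 (V : Nat → Bool) (h1 : V 1 = true) : Cons V (init3 (V 2) (V 3) (V 5)).1
    (init3 (V 2) (V 3) (V 5)).2 := by
  have h0 : Cons V 0 0 := ⟨fun i hi => by simp at hi, fun i hi => by simp at hi⟩
  have e : ∀ P M w, Cons V P M → Cons V (if V w then P ||| 2 ^ w else P)
      (if V w then M else M ||| 2 ^ w) := by
    intro P M w h
    cases hw : V w with
    | true => simpa using h.addP hw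
    | false => simpa using h.addM hw
  have := e _ _ 5 (e _ _ 3 (e _ _ 2 (h0.addP h1)))
  revert this
  unfold init3
  cases V 2 <;> cases V 3 <;> cases V 5 <;> exact fun h => h

/-- use of a certificate without knowledge of `f 7` -/
theorem refute3 (f : ℕ → Bool) (hf : MulSign f) {A B : ℕ} (hA : 0 < A) (hB : 0 < B)
    (hav : Avoids f (60 * A) (60 * B)) {c2 c3 c5 : Bool} (h2 : f 2 = c2) (h3 : f 3 = c3)
    (h5 : f 5 = c5) {ks : List ℕ}
    (h : runD (colT c2 c3 c5 true) (okEE 0 0 0) okHH ks (init3 c2 c3 c5).1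
      (init3 c2 c3 c5).2 [] = true) : False := by
  have hcl : ClassOK A B 0 0 0 := ⟨by norm_num, by norm_num⟩
  have hE := hypE f hf hA hB hav hcl
  rw [h2, h3, h5] at hE
  have hE' : HypE (fun s => f (pt A B s)) (colT c2 c3 c5 true) (okEE 0 0 0) := by
    intro s t ht
    have := hE s t ht
    have hc : colT c2 c3 c5 (f 7) t = colT c2 c3 c5 true t := by
      simp only [okEE, baseT, Bool.and_eq_true, Bool.or_eq_true, Nat.beq_eq] at ht
      obtain ⟨_, ht⟩ := ht
      rcases ht with (((((((ht | ht) | ht) | ht) | ht) | ht) | ht) | ht) | ht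
      iterate 8 (subst ht; rfl)
      exfalso
      obtain ⟨⟨_, h1⟩, _⟩ := ht
      omega
    rwa [hc] at this
  have hs := runD_sound hE' (hypH f hf hA hB) ks _ _ [] h
  apply hs
  left
  have := cons_init3 (fun s => f (pt A B s)) (by simp [pt, hf.one])
  have e2 : f (pt A B 2) = c2 := by simp [pt, h2]
  have e3 : f (pt A B 3) = c3 := by simp [pt, h3]
  have e5 : f (pt A B 5) = c5 := by simp [pt, h5]
  beta_reduce at this
  rw [e2, e3, e5] at this
  exact this

/-- use of a certificate with class information -/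
theorem refute4 (f : ℕ → Bool) (hf : MulSign f) {A B : ℕ} (hA : 0 < A) (hB : 0 < B)
    (hav : Avoids f (60 * A) (60 * B)) {c2 c3 c5 c7 : Bool} (h2 : f 2 = c2) (h3 : f 3 = c3)
    (h5 : f 5 = c5) (h7 : f 7 = c7) {use7 α β : ℕ} (hcl : ClassOK A B use7 α β) {ks : List ℕ}
    (h : runD (colT c2 c3 c5 c7) (okEE use7 α β) okHH ks (init4 c2 c3 c5 c7).1
      (init4 c2 c3 c5 c7).2 [] = true) : False := by
  have hE := hypE f hf hA hB hav hcl
  rw [h2, h3, h5, h7] at hE
  have hs := runD_sound hE (hypH f hf hA hB) ks _ _ [] h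
  apply hs
  left
  have := cons_init4 (fun s => f (pt A B s)) (by simp [pt, hf.one])
  have e2 : f (pt A B 2) = c2 := by simp [pt, h2]
  have e3 : f (pt A B 3) = c3 := by simp [pt, h3]
  have e5 : f (pt A B 5) = c5 := by simp [pt, h5]
  have e7 : f (pt A B 7) = c7 := by simp [pt, h7]
  beta_reduce at this
  rw [e2, e3, e5, e7] at this
  exact this

end Pool.Agent.Hhelper89.Lehmer
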