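import Pool.Agent.Hhelper89.Lehmer.HomData
import Pool.Agent.Hhelper89.Lehmer.CountData
import Pool.Agent.Hhelper89.Lehmer.Compact

/-!
No completely multiplicative sign function avoids `+++` at `(60 A, 60 B)` unless the pair is
exceptional modulo 7.
-/

namespace Pool.Agent.Hhelper89.Lehmer

/-- the case `f 2 = f 3 = f 5 = +` -/
theorem density_case {f : ℕ → Bool} (hf : MulSign f) {A B : ℕ}
    (hav : Avoids f (60 * A) (60 * B)) (h2 : f 2 = true) (h3 : f 3 = true) (h5 : f 5 = true) :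
    False := by
  have f4 : f 4 = true := sq_true hf
  have f10 : f 10 = true := by
    have := hf 2 5 (by norm_num) (by norm_num); rw [h2, h5] at this; exact this
  have f12 : f 12 = true := by
    have := hf 4 3 (by norm_num) (by norm_num); rw [f4, h3] at this; exact this
  have f15 : f 15 = true := by
    have := hf 3 5 (by norm_num) (by norm_num); rw [h3, h5] at this; exact this
  have f20 : f 20 = true := by
    have := hf 4 5 (by norm_num) (by norm_num); rw [f4, h5] at this; exact this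
  have f30 : f 30 = true := by
    have := hf 2 15 (by norm_num) (by norm_num); rw [h2, f15] at this; exact this
  have f60 : f 60 = true := by
    have := hf 4 15 (by norm_num) (by norm_num); rw [f4, f15] at this; exact this
  obtain ⟨n₀, hn₀, hcard⟩ := exists_half_plus hf ((Finset.range 81).filter (fun s => s / 9 + s % 9 ≤ 8))
    (fun s => s / 9 * A + s % 9 * B)
  have hs : ((Finset.range 81).filter (fun s => s / 9 + s % 9 ≤ 8)).card = 45 := by decide
  rw [hs] at hcard
  let A' : ℕ → Bool := fun s => f (n₀ + (s / 9 * A + s % 9 * B))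
  have hA : CornerFree A' := by
    intro s t ht1 ht6 hst ⟨k1, k2, k3⟩
    have e1 : (s + t) / 9 = s / 9 := by omega
    have e2 : (s + t) % 9 = s % 9 + t := by omega
    have e3 : (s + 9 * t) / 9 = s / 9 + t := by omega
    have e4 : (s + 9 * t) % 9 = s % 9 := by omega
    have k2' : f (n₀ + (s / 9 * A + s % 9 * B) + t * B) = true := by
      have : n₀ + (s / 9 * A + s % 9 * B) + t * B = n₀ + ((s + t) / 9 * A + (s + t) % 9 * B) := by
        rw [e1, e2]; ring
      rw [this]; exact k2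
    have k3' : f (n₀ + (s / 9 * A + s % 9 * B) + t * A) = true := by
      have : n₀ + (s / 9 * A + s % 9 * B) + t * A =
          n₀ + ((s + 9 * t) / 9 * A + (s + 9 * t) % 9 * B) := by
        rw [e3, e4]; ring
      rw [this]; exact k3
    have hpos : 0 < n₀ + (s / 9 * A + s % 9 * B) := by omega
    have key : ∀ q, t * q = 60 → f q = true → False := by
      intro q htq hq
      apply base_corner hf hav htq hpos
      rw [hq]
      exact ⟨k1, k3', k2'⟩
    interval_cases t
    · exact key 60 (by norm_num) f60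
    · exact key 30 (by norm_num) f30
    · exact key 20 (by norm_num) f20
    · exact key 15 (by norm_num) f15
    · exact key 12 (by norm_num) f12
    · exact key 10 (by norm_num) f10
  have h23 := missing_card A' hA
  have e : missing A' = (((Finset.range 81).filter (fun s => s / 9 + s % 9 ≤ 8)).filter
      (fun i => f (n₀ + (i / 9 * A + i % 9 * B)) = false)) := by
    unfold missing
    rw [Finset.filter_filter]
  rw [e] at h23
  omega

/-- the case `(+,-,-)` -/
theorem special_case {f : ℕ → Bool} (hf : MulSign f) {A B : ℕ} (hA : 0 < A) (hB : 0 < B)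
    (hav : Avoids f (60 * A) (60 * B)) (h2 : f 2 = true) (h3 : f 3 = false) (h5 : f 5 = false)
    (hne : ∀ x y, x < 7 → y < 7 → A % 7 = x → B % 7 = y →
      (({(4 * x) % 7, (4 * y) % 7} : Finset ℕ) ≠ {1, 5} ∧
        ({(4 * x) % 7, (4 * y) % 7} : Finset ℕ) ≠ {2, 3} ∧
        ({(4 * x) % 7, (4 * y) % 7} : Finset ℕ) ≠ {4, 6})) : False := by
  -- class certificates up to a unit
  have r00 : ∀ {A B : ℕ}, 0 < A → 0 < B → Avoids f (60 * A) (60 * B) → ClassOK A B 1 0 0 → False := by
    intro A B hA hB hav hc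
    cases h7 : f 7 with
    | true => exact refute4 f hf hA hB hav h2 h3 h5 h7 hc cls00p_ok
    | false => exact refute4 f hf hA hB hav h2 h3 h5 h7 hc cls00m_ok
  have r01 : ∀ {A B : ℕ}, 0 < A → 0 < B → Avoids f (60 * A) (60 * B) → ClassOK A B 1 0 1 → False := by
    intro A B hA hB hav hc
    cases h7 : f 7 with
    | true => exact refute4 f hf hA hB hav h2 h3 h5 h7 hc cls01p_ok
    | false => exact refute4 f hf hA hB hav h2 h3 h5 h7 hc cls01m_ok
  have r11 : ∀ {A B : ℕ}, 0 < A → 0 < B → Avoids f (60 * A) (60 * B) → ClassOK A B 1 1 1 → False := by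
    intro A B hA hB hav hc
    cases h7 : f 7 with
    | true => exact refute4 f hf hA hB hav h2 h3 h5 h7 hc cls11p_ok
    | false => exact refute4 f hf hA hB hav h2 h3 h5 h7 hc cls11m_ok
  have r12 : ∀ {A B : ℕ}, 0 < A → 0 < B → Avoids f (60 * A) (60 * B) → ClassOK A B 1 1 2 → False := by
    intro A B hA hB hav hc
    cases h7 : f 7 with
    | true => exact refute4 f hf hA hB hav h2 h3 h5 h7 hc cls12p_ok
    | false => exact refute4 f hf hA hB hav h2 h3 h5 h7 hc cls12m_ok
  have r16 : ∀ {A B : ℕ}, 0 < A → 0 < B → Avoids f (60 * A) (60 * B) → ClassOK A B 1 1 6 → False := by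
    intro A B hA hB hav hc
    cases h7 : f 7 with
    | true => exact refute4 f hf hA hB hav h2 h3 h5 h7 hc cls16p_ok
    | false => exact refute4 f hf hA hB hav h2 h3 h5 h7 hc cls16m_ok
  have r13 : ∀ {A B : ℕ}, 0 < A → 0 < B → Avoids f (60 * A) (60 * B) → ClassOK A B 2 1 3 → False := by
    intro A B hA hB hav hc
    cases h7 : f 7 with
    | true => exact refute4 f hf hA hB hav h2 h3 h5 h7 hc sp13p_ok
    | false => exact refute4 f hf hA hB hav h2 h3 h5 h7 hc sp13m_ok
  have r26 : ∀ {A B : ℕ}, 0 < A → 0 < B → Avoids f (60 * A) (60 * B) → ClassOK A B 2 2 6 → False := by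
    intro A B hA hB hav hc
    cases h7 : f 7 with
    | true => exact refute4 f hf hA hB hav h2 h3 h5 h7 hc sp26p_ok
    | false => exact refute4 f hf hA hB hav h2 h3 h5 h7 hc sp26m_ok
  have r45 : ∀ {A B : ℕ}, 0 < A → 0 < B → Avoids f (60 * A) (60 * B) → ClassOK A B 2 4 5 → False := by
    intro A B hA hB hav hc
    cases h7 : f 7 with
    | true => exact refute4 f hf hA hB hav h2 h3 h5 h7 hc sp45p_ok
    | false => exact refute4 f hf hA hB hav h2 h3 h5 h7 hc sp45m_ok
  -- classification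
  have hcls : ∀ x < 7, ∀ y < 7,
      (({(4 * x) % 7, (4 * y) % 7} : Finset ℕ) = {1, 5} ∨
        ({(4 * x) % 7, (4 * y) % 7} : Finset ℕ) = {2, 3} ∨
        ({(4 * x) % 7, (4 * y) % 7} : Finset ℕ) = {4, 6}) ∨
      (∃ u < 7, (x = (u * 0) % 7 ∧ y = (u * 0) % 7) ∨ (x = (u * 0) % 7 ∧ y = (u * 1) % 7) ∨
        (x = (u * 1) % 7 ∧ y = (u * 1) % 7) ∨ (x = (u * 1) % 7 ∧ y = (u * 2) % 7) ∨
        (x = (u * 1) % 7 ∧ y = (u * 6) % 7) ∨
        (y = (u * 0) % 7 ∧ x = (u * 1) % 7) ∨ (y = (u * 1) % 7 ∧ x = (u * 2) % 7)) ∨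
      (x = 1 ∧ y = 3) ∨ (x = 2 ∧ y = 6) ∨ (x = 4 ∧ y = 5) ∨
      (y = 1 ∧ x = 3) ∨ (y = 2 ∧ x = 6) ∨ (y = 4 ∧ x = 5) := by
    intro x hx y hy
    interval_cases x <;> interval_cases y <;> decide
  have c1 : ∀ {A B α β u : ℕ}, A % 7 = (u * α) % 7 → B % 7 = (u * β) % 7 → ClassOK A B 1 α β :=
    fun ha hb => ⟨by norm_num, fun _ => ⟨_, ha, hb⟩⟩
  have c2 : ∀ {A B α β : ℕ}, A % 7 = α % 7 → B % 7 = β % 7 → ClassOK A B 2 α β :=
    fun ha hb => ⟨fun _ => ⟨ha, hb⟩, by norm_num⟩
  have hx : A % 7 < 7 := Nat.mod_lt _ (by norm_num)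
  have hy : B % 7 < 7 := Nat.mod_lt _ (by norm_num)
  have hswap := hav.swap
  rcases hcls (A % 7) hx (B % 7) hy with h | ⟨u, _, h | h | h | h | h | h | h⟩ | h | h | h | h | h | h
  · have h' := hne (A % 7) (B % 7) hx hy rfl rfl
    rcases h with h | h | h
    · exact h'.1 h
    · exact h'.2.1 h
    · exact h'.2.2 h
  · exact r00 hA hB hav (c1 h.1 h.2)
  · exact r01 hA hB hav (c1 h.1 h.2)
  · exact r11 hA hB hav (c1 h.1 h.2)
  · exact r12 hA hB hav (c1 h.1 h.2)
  · exact r16 hA hB hav (c1 h.1 h.2)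
  · exact r01 hB hA hswap (c1 h.1 h.2)
  · exact r12 hB hA hswap (c1 h.1 h.2)
  · exact r13 hA hB hav (c2 h.1 h.2)
  · exact r26 hA hB hav (c2 h.1 h.2)
  · exact r45 hA hB hav (c2 h.1 h.2)
  · exact r13 hB hA hswap (c2 h.1 h.2)
  · exact r26 hB hA hswap (c2 h.1 h.2)
  · exact r45 hB hA hswap (c2 h.1 h.2)

/-- no sign function avoids a non-exceptional pair divisible by 60 -/
theorem no_sign {f : ℕ → Bool} (hf : MulSign f) {a b : ℕ} (ha : 0 < a) (hb : 0 < b)
    (h1 : 60 ∣ a) (h2 : 60 ∣ b) (hne : ¬ Exceptional a b) (hav : Avoids f a b) : False := by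
  obtain ⟨A, rfl⟩ := h1
  obtain ⟨B, rfl⟩ := h2
  have hA : 0 < A := by omega
  have hB : 0 < B := by omega
  cases e2 : f 2 <;> cases e3 : f 3 <;> cases e5 : f 5
  · exact refute3 f hf hA hB hav e2 e3 e5 gen5_ok
  · exact refute3 f hf hA hB hav e2 e3 e5 gen4_ok
  · exact refute3 f hf hA hB hav e2 e3 e5 gen3_ok
  · exact refute3 f hf hA hB hav e2 e3 e5 gen2_ok
  · apply special_case hf hA hB hav e2 e3 e5
    intro x y hx hy hxA hyB
    have e1 : (60 * A) % 7 = (4 * x) % 7 := by omega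
    have e2 : (60 * B) % 7 = (4 * y) % 7 := by omega
    unfold Exceptional at hne
    rw [e1, e2] at hne
    push Not at hne
    exact ⟨hne.2.2.2.2.1, hne.2.2.2.2.2.1, hne.2.2.2.2.2.2⟩
  · exact refute3 f hf hA hB hav e2 e3 e5 gen1_ok
  · exact refute3 f hf hA hB hav e2 e3 e5 gen0_ok
  · exact density_case hf hav e2 e3 e5

/-- the main theorem -/
theorem omega_lt_top (a b : ℕ) (ha : 0 < a) (hab : a < b) (h1 : 60 ∣ a) (h2 : 60 ∣ b)
    (hne : ¬ Exceptional a b) : Omega a b < ⊤ := by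
  by_contra hcon
  have htop : Omega a b = ⊤ := by simpa using hcon
  have h : ∀ M, 0 < M → ¬ TripleBound a b M := by
    intro M hM hT
    have hle : Omega a b ≤ (M : ℕ∞) := sInf_le ⟨M, hM, hT, rfl⟩
    rw [htop, top_le_iff] at hle
    exact absurd hle (by simp)
  obtain ⟨f, hf, hav⟩ := exists_sign a b h
  exact no_sign hf ha (ha.trans hab) h1 h2 hne hav

end Pool.Agent.Hhelper89.Lehmer
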